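import Pool.Agent.NH83.VN.Main

/-!
# The exponent of volumetric weak `ε`-nets is at most `d`, hence less than `d + 1`

The theorem `Pool.Agent.NH83.VN.main` of the starting files gives volumetric weak nets with
`O(ε ^ (-α))` members, `α > d`, for families of convex sets of volume one.  Here this is extended to
weighted families of convex sets of volume at least one.
-/

set_option autoImplicit false

open Finset MeasureTheory

namespace Pool.Agent.Results.MP_4f30eb_co.ExponentBelow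

/-- `S` is a volumetric weak `ε`-net of volume `v` for the finite family `F`: all members of `S`
have volume at least `v` (and are measurable), and for every subfamily `G ⊆ F` with
`|G| ≥ ε |F|` the set `conv G` contains a member of `S`. -/
def IsNet {d : ℕ} (F : Finset (Set (Fin d → ℝ))) (ε v : ℝ) (S : Finset (Set (Fin d → ℝ))) : Prop :=
  (∀ s ∈ S, MeasurableSet s ∧ ENNReal.ofReal v ≤ volume s) ∧
    ∀ G ⊆ F, ε * F.card ≤ G.card → ∃ s ∈ S, s ⊆ convexHull ℝ (⋃ A ∈ G, A)

/-- The exponent `α > 0` is admissible in dimension `d`: there are `v > 0` and `C` such that for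
all `ε ∈ (0, 1]` every nonempty finite family of convex sets of volume one has a volumetric weak
`ε`-net of volume `v` with at most `C ε ^ (-α)` members. -/
def Admissible (d : ℕ) (α : ℝ) : Prop :=
  0 < α ∧ ∃ v C : ℝ, 0 < v ∧ ∀ ε : ℝ, 0 < ε → ε ≤ 1 →
    ∀ F : Finset (Set (Fin d → ℝ)), F.Nonempty → (∀ A ∈ F, Convex ℝ A ∧ volume A = 1) →
      ∃ S : Finset (Set (Fin d → ℝ)), (S.card : ℝ) ≤ C * ε ^ (-α) ∧ IsNet F ε v S

/-- The same for weighted families of convex sets of volume at least one, indexed by a finite type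
(so that a set may occur several times): the condition `|G| ≥ ε |F|` becomes
`w(G) ≥ ε w(F)`, where `w` is any nonnegative weight function that is not zero. -/
def WeightedAdmissible (d : ℕ) (α : ℝ) : Prop :=
  0 < α ∧ ∃ v C : ℝ, 0 < v ∧ ∀ ε : ℝ, 0 < ε → ε ≤ 1 →
    ∀ (ι : Type) [Fintype ι] (F : ι → Set (Fin d → ℝ)) (w : ι → ℝ),
      (∀ i, Convex ℝ (F i) ∧ 1 ≤ volume (F i)) → (∀ i, 0 ≤ w i) → 0 < ∑ i, w i →
      ∃ S : Finset (Set (Fin d → ℝ)), (S.card : ℝ) ≤ C * ε ^ (-α) ∧
        (∀ s ∈ S, MeasurableSet s ∧ volume s = ENNReal.ofReal v) ∧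
        ∀ G : Finset ι, ε * ∑ i, w i ≤ ∑ i ∈ G, w i → ∃ s ∈ S, s ⊆ convexHull ℝ (⋃ i ∈ G, F i)

/-- The infimum `α_d` of the admissible exponents. -/
noncomputable def alpha (d : ℕ) : ℝ := sInf {α : ℝ | Admissible d α}

/-- A convex set of volume at least one contains a convex set of volume one. -/
theorem exists_sub {d : ℕ} (hd : 1 ≤ d) {A : Set (Fin d → ℝ)} (hA : Convex ℝ A) (hv : 1 ≤ volume A) :
    ∃ B ⊆ A, Convex ℝ B ∧ volume B = 1 := by
  rcases hv.eq_or_lt with h1 | h1
  · exact ⟨A, subset_rfl, hA, h1.symm⟩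
  -- a bounded part of volume at least one
  have hmono : Monotone fun n : ℕ => A ∩ Metric.closedBall (0 : Fin d → ℝ) n := fun m n hmn =>
    Set.inter_subset_inter_right _ (Metric.closedBall_subset_closedBall (by exact_mod_cast hmn))
  have hU : (⋃ n : ℕ, A ∩ Metric.closedBall (0 : Fin d → ℝ) n) = A := by
    rw [← Set.inter_iUnion, Metric.iUnion_closedBall_nat, Set.inter_univ]
  have ht := tendsto_measure_iUnion_atTop (μ := (volume : Measure (Fin d → ℝ))) hmono
  rw [hU] at ht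
  obtain ⟨n, hn⟩ := (ht.eventually (lt_mem_nhds h1)).exists
  obtain ⟨A', hA'⟩ : ∃ A', A' = A ∩ Metric.closedBall (0 : Fin d → ℝ) n := ⟨_, rfl⟩
  simp only [Function.comp_apply] at hn
  rw [← hA'] at hn
  have hc : Convex ℝ A' := by rw [hA']; exact hA.inter (convex_closedBall _ _)
  have hfin : volume A' < ⊤ := by
    rw [hA']
    exact (measure_mono Set.inter_subset_right).trans_lt
      (isCompact_closedBall (0 : Fin d → ℝ) n).measure_lt_top
  obtain ⟨c, hcA⟩ : A'.Nonempty := nonempty_of_measure_ne_zero (ne_of_gt (lt_trans one_pos hn))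
  obtain ⟨V, hV⟩ : ∃ V : ℝ, V = (volume A').toReal := ⟨_, rfl⟩
  have hV1 : 1 < V := by
    rw [hV]
    have := (ENNReal.toReal_lt_toReal (by simp) hfin.ne).2 hn
    simpa using this
  have hV0 : 0 < V := by linarith
  have hd0 : (d : ℝ) ≠ 0 := by exact_mod_cast (by omega : d ≠ 0)
  obtain ⟨t, ht⟩ : ∃ t : ℝ, t = V ^ (-(1 / (d : ℝ))) := ⟨_, rfl⟩
  have ht0 : 0 < t := by rw [ht]; positivity
  have ht1 : t ≤ 1 := by
    rw [ht]
    exact Real.rpow_le_one_of_one_le_of_nonpos hV1.le (by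
      have : 0 ≤ 1 / (d : ℝ) := by positivity
      linarith)
  have htd : t ^ d = V⁻¹ := by
    rw [ht, ← Real.rpow_natCast, ← Real.rpow_mul hV0.le]
    have : -(1 / (d : ℝ)) * (d : ℝ) = -1 := by field_simp
    rw [this, Real.rpow_neg_one]
  refine ⟨AffineMap.homothety c t '' A', ?_, ?_, ?_⟩
  · rintro _ ⟨x, hx, rfl⟩
    have h2 : AffineMap.homothety c t x ∈ A' := by
      have := hc hcA hx (sub_nonneg.2 ht1) ht0.le (by ring)
      rw [AffineMap.homothety_apply]
      convert this using 1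
      simp only [vsub_eq_sub, vadd_eq_add]
      module
    rw [hA'] at h2
    exact h2.1
  · exact hc.affine_image _
  · rw [Measure.addHaar_image_homothety]
    simp only [Module.finrank_fintype_fun_eq_card, Fintype.card_fin]
    rw [htd, abs_of_pos (by positivity), ← ENNReal.ofReal_toReal hfin.ne, ← hV,
      ← ENNReal.ofReal_mul (by positivity), inv_mul_cancel₀ hV0.ne', ENNReal.ofReal_one]

theorem weighted {d : ℕ} (hd : 1 ≤ d) {α : ℝ} (hα : (d : ℝ) < α) : WeightedAdmissible d α := by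
  classical
  have hα0 : 0 < α := lt_of_le_of_lt (Nat.cast_nonneg d) hα
  obtain ⟨v, C, hv, hC, H⟩ := NH83.VN.main hd hα
  refine ⟨hα0, v, C * 2 ^ α, hv, fun ε hε hε1 ι _ F w hF hw hw0 => ?_⟩
  obtain ⟨W, hW⟩ : ∃ W : ℝ, W = ∑ i, w i := ⟨_, rfl⟩
  rw [← hW] at hw0
  choose B hBF hBc hBv using fun i => exists_sub hd (hF i).1 (hF i).2
  obtain ⟨N, hN⟩ : ∃ N : ℕ, N = Fintype.card ι + 1 := ⟨_, rfl⟩
  obtain ⟨m, hm⟩ : ∃ m : ι → ℕ, m = fun i => ⌈N * (w i / W)⌉₊ := ⟨_, rfl⟩
  have hm1 : ∀ i, N * (w i / W) ≤ m i := fun i => by rw [hm]; exact Nat.le_ceil _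
  have hm2 : ∀ i, (m i : ℝ) ≤ N * (w i / W) + 1 := fun i => by
    rw [hm]
    exact (Nat.ceil_lt_add_one (mul_nonneg (Nat.cast_nonneg _) (div_nonneg (hw i) hw0.le))).le
  have hN0 : (0 : ℝ) < N := by rw [hN]; positivity
  have hsum1 : (N : ℝ) ≤ ∑ i, (m i : ℝ) := by
    calc (N : ℝ) = ∑ i, N * (w i / W) := by
          rw [← Finset.mul_sum, ← Finset.sum_div, ← hW, div_self hw0.ne', mul_one]
      _ ≤ _ := Finset.sum_le_sum fun i _ => hm1 i
  have hsum2 : ∑ i, (m i : ℝ) ≤ 2 * N := by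
    calc ∑ i, (m i : ℝ) ≤ ∑ i, (N * (w i / W) + 1) := Finset.sum_le_sum fun i _ => hm2 i
      _ = N + Fintype.card ι := by
          rw [Finset.sum_add_distrib, ← Finset.mul_sum, ← Finset.sum_div, ← hW, div_self hw0.ne',
            mul_one]
          simp
      _ ≤ 2 * N := by
          have : ((Fintype.card ι : ℕ) : ℝ) ≤ N := by rw [hN]; push_cast; linarith
          linarith
  have hcard : (Fintype.card (Σ i, Fin (m i)) : ℝ) = ∑ i, (m i : ℝ) := by
    simp [Fintype.card_sigma]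
  have hne : Nonempty (Σ i, Fin (m i)) := by
    apply Fintype.card_pos_iff.1
    have : (0 : ℝ) < Fintype.card (Σ i, Fin (m i)) := by rw [hcard]; linarith
    exact_mod_cast this
  obtain ⟨S, hS1, hS2, hS3⟩ := H (ε / 2) (by linarith) (by linarith) (Σ i, Fin (m i))
    (fun x => B x.1) (fun x => ⟨hBc x.1, hBv x.1⟩)
  refine ⟨S, hS1.trans (le_of_eq ?_), hS2, fun G hG => ?_⟩
  · rw [Real.div_rpow hε.le (by norm_num), Real.rpow_neg (by norm_num : (0 : ℝ) ≤ 2)]
    rw [div_inv_eq_mul]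
    ring
  · obtain ⟨s, hs, hs'⟩ := hS3 (G.sigma fun i => Finset.univ) (by
      rw [Finset.card_sigma, hcard]
      push_cast
      simp only [Finset.card_univ, Fintype.card_fin]
      have h1 : ε * N ≤ ∑ i ∈ G, (m i : ℝ) := by
        calc ε * N ≤ (∑ i ∈ G, w i) / W * N := by
              apply mul_le_mul_of_nonneg_right _ hN0.le
              rw [le_div_iff₀ hw0, hW]
              exact hG
          _ = ∑ i ∈ G, N * (w i / W) := by
              rw [← Finset.mul_sum, ← Finset.sum_div]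
              ring
          _ ≤ _ := Finset.sum_le_sum fun i _ => hm1 i
      calc ε / 2 * ∑ i, (m i : ℝ) ≤ ε / 2 * (2 * N) := by gcongr
        _ = ε * N := by ring
        _ ≤ _ := h1)
    refine ⟨s, hs, hs'.trans (convexHull_mono ?_)⟩
    intro x hx
    rw [Set.mem_iUnion₂] at hx
    obtain ⟨⟨i, j⟩, hi, hx⟩ := hx
    rw [Finset.mem_sigma] at hi
    exact Set.mem_biUnion hi.1 (hBF i hx)

theorem admissible_of_weighted {d : ℕ} {α : ℝ} (h : WeightedAdmissible d α) : Admissible d α := by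
  classical
  obtain ⟨h0, v, C, hv, H⟩ := h
  refine ⟨h0, v, C, hv, fun ε hε hε1 F hF hA => ?_⟩
  obtain ⟨S, hS1, hS2, hS3⟩ := H ε hε hε1 F (fun A => (A : Set (Fin d → ℝ))) (fun _ => 1)
    (fun A => ⟨(hA A A.2).1, (hA A A.2).2.ge⟩) (fun _ => zero_le_one) (by
      simp only [Finset.sum_const, Finset.card_univ, Fintype.card_coe, nsmul_eq_mul, mul_one]
      exact_mod_cast hF.card_pos)
  refine ⟨S, hS1, fun s hs => ⟨(hS2 s hs).1, (hS2 s hs).2.ge⟩, fun G hG hc => ?_⟩
  obtain ⟨s, hs, hs'⟩ := hS3 (G.subtype (· ∈ F)) (by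
    simp only [Finset.sum_const, Finset.card_univ, Fintype.card_coe, nsmul_eq_mul, mul_one]
    rw [card_subtype, filter_true_of_mem fun A hA => hG hA]
    exact hc)
  refine ⟨s, hs, hs'.trans (convexHull_mono ?_)⟩
  intro x hx
  rw [Set.mem_iUnion₂] at hx ⊢
  obtain ⟨A, hA, hx⟩ := hx
  exact ⟨A, mem_subtype.1 hA, hx⟩

/-- **`α_d ≤ d < d + 1` in every dimension.**  For every `d ≥ 1` every exponent `α > d` is
admissible, even for weighted families of convex sets of volume at least one; hence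
`α_d ≤ d < d + 1`, and some admissible exponent is less than `d + 1`. -/
theorem result : ∀ d : ℕ, 1 ≤ d →
    (∀ α : ℝ, (d : ℝ) < α → Admissible d α ∧ WeightedAdmissible d α) ∧
      (∃ α : ℝ, Admissible d α ∧ α < (d : ℝ) + 1) ∧ alpha d ≤ (d : ℝ) ∧
      alpha d < (d : ℝ) + 1 := by
  intro d hd
  have h1 : ∀ α : ℝ, (d : ℝ) < α → Admissible d α := fun α hα =>
    admissible_of_weighted (weighted hd hα)
  have h2 : alpha d ≤ (d : ℝ) := by
    apply le_of_forall_pos_le_add
    intro e he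
    exact csInf_le ⟨0, fun x hx => hx.1.le⟩ (h1 (d + e) (by linarith))
  exact ⟨fun α hα => ⟨h1 α hα, weighted hd hα⟩, ⟨d + 1 / 2, h1 _ (by linarith), by linarith⟩, h2,
    by linarith⟩

end Pool.Agent.Results.MP_4f30eb_co.ExponentBelow
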